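import Pool.Agent.Run7.h453.PC.Law
import Pool.Agent.N41.RM.Off2

/-! The law at an arbitrary real point. -/

set_option autoImplicit false

namespace Pool.Agent.Run7.h453.PC

open Filter Topology Set
open Pool.Agent.W187.UR (Lam cmean)
open Pool.Agent.W189.ML (ser om)
open Pool.Agent.N41.RM

variable {P : Type} {N : ℕ} {q : P → ℝ} {a : P → Fin N → ℂ} {κ : ℝ}

/-- the coefficients at the point `σ₀` -/
noncomputable def cs (q : P → ℝ) (a : P → Fin N → ℂ) (σ₀ : ℝ) (x : P × ℕ) : ℝ :=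
  cq a x * Real.exp (-(σ₀ * fq q x))

theorem cs_abs (σ₀ : ℝ) (x : P × ℕ) : |cs q a σ₀ x| = |cq a x| * Real.exp (-(σ₀ * fq q x)) := by
  unfold cs
  rw [abs_mul, abs_of_pos (Real.exp_pos _)]

theorem cs_summable (E : EG κ q a) (σ₀ : ℝ) {σ : ℝ} (hσ : 1 + κ - σ₀ < σ) :
    Summable fun x => |cs q a σ₀ x| * Real.exp (-(σ * fq q x)) := by
  refine (E.summable (σ := σ₀ + σ) (by linarith)).congr fun x => ?_
  rw [cs_abs, mul_assoc, ← Real.exp_add]
  congr 2
  ring

theorem ser_cs (σ₀ : ℝ) (w : ℂ) : ser (fq q) (cs q a σ₀) w = ser (fq q) (cq a) (σ₀ + w) := by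
  unfold ser cs
  refine tsum_congr fun x => ?_
  push_cast
  rw [mul_assoc, ← Complex.exp_add]
  congr 2
  ring

/-- the term of the rotated mean at the point `σ₀` -/
noncomputable def aterm (q : P → ℝ) (a : P → Fin N → ℂ) (σ₀ γ T : ℝ) (x : P × ℕ) : ℂ :=
  -((cs q a σ₀ x : ℂ) * Complex.exp ((γ * (fq q x / T) : ℝ) * Complex.I) * (om (fq q x / T) : ℂ))

theorem aterm_summable (E : EG κ q a) (σ₀ γ : ℝ) {T : ℝ} (hT : 0 < T) :
    Summable fun x => ‖aterm q a σ₀ γ T x‖ := by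
  set σ : ℝ := |1 + κ - σ₀| + 1 with hσ
  have h0 := abs_nonneg (1 + κ - σ₀)
  have h1' := le_abs_self (1 + κ - σ₀)
  refine Summable.of_nonneg_of_le (fun x => norm_nonneg _) (fun x => ?_)
    ((cs_summable E σ₀ (σ := σ) (by rw [hσ]; linarith)).mul_left (Real.exp (Real.exp (σ * T)) + 1))
  unfold aterm
  rw [norm_neg, norm_mul, norm_mul, Complex.norm_exp_ofReal_mul_I, mul_one,
    Complex.norm_real, Complex.norm_real, Real.norm_eq_abs, Real.norm_eq_abs]
  have hv : 0 ≤ fq q x / T := div_nonneg (E.fq_nonneg x) hT.le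
  have h1 := Pool.Agent.W189.ML.om_le (a := σ * T) (v := fq q x / T) (by positivity) hv
  have h2 : σ * T * (fq q x / T) = σ * fq q x := by field_simp
  rw [h2] at h1
  have h3 : 0 ≤ om (fq q x / T) := by
    unfold om
    exact inv_nonneg.2 (Real.Gamma_nonneg_of_nonneg (by linarith))
  rw [abs_of_nonneg h3]
  calc |cs q a σ₀ x| * om (fq q x / T)
      ≤ |cs q a σ₀ x| * ((Real.exp (Real.exp (σ * T)) + 1) * Real.exp (-(σ * fq q x))) := by gcongr
    _ = _ := by ring

theorem eg_analytic (E : EG κ q a) {F : ℂ → ℂ}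
    (hF : ∀ s : ℂ, 1 + κ < s.re → F s = ∏' v, ∏ j, (1 - a v j * (q v : ℂ) ^ (-s))⁻¹) {s : ℂ}
    (hs : 1 + κ < s.re) : AnalyticAt ℂ F s ∧ F s ≠ 0 := by
  have heq : ∀ w : ℂ, 1 + κ < w.re → F w = Complex.exp (ser (fq q) (cq a) w) := fun w hw => by
    rw [hF w hw, (E.hasProd hw).tprod_eq]
  have ho : IsOpen {z : ℂ | 1 + κ < z.re} := isOpen_lt continuous_const Complex.continuous_re
  have h6 : AnalyticAt ℂ (fun z => Complex.exp (ser (fq q) (cq a) z)) s := by
    refine AnalyticAt.cexp ?_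
    set ρ : ℝ := (1 + κ + s.re) / 2 with hρ
    have hρ1 : 1 + κ < ρ := by rw [hρ]; linarith
    have hρσ : ρ < s.re := by rw [hρ]; linarith
    have hopen : IsOpen {z : ℂ | ρ < z.re} := isOpen_lt continuous_const Complex.continuous_re
    have h1 : DifferentiableOn ℂ (ser (fq q) (cq a)) {z : ℂ | ρ < z.re} := by
      unfold ser
      refine Complex.differentiableOn_tsum_of_summable_norm
        (E.summable (by linarith : 1 + κ < ρ)) (fun i => ?_) hopen (fun i z hz => ?_)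
      · exact Differentiable.differentiableOn (by fun_prop)
      · rw [norm_mul, Complex.norm_real, Real.norm_eq_abs, Complex.norm_exp]
        refine mul_le_mul_of_nonneg_left ?_ (abs_nonneg _)
        apply Real.exp_le_exp.2
        have h2 : (-(z * fq q i)).re = -(z.re * fq q i) := by
          rw [Complex.neg_re, Complex.re_mul_ofReal]
        rw [h2]
        have hz' : ρ < z.re := hz
        have := E.fq_nonneg i
        nlinarith
    exact h1.analyticAt (hopen.mem_nhds hρσ)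
  have h7 : F =ᶠ[𝓝 s] fun z => Complex.exp (ser (fq q) (cq a) z) := by
    filter_upwards [ho.mem_nhds hs] with z hz
    exact heq z hz
  refine ⟨h6.congr h7.symm, ?_⟩
  rw [heq s hs]
  exact Complex.exp_ne_zero _

/-- **The rotated law at an arbitrary real point.** -/
theorem any_law [Countable P] (E : EG κ q a) {F : ℂ → ℂ} {σ₀ : ℝ}
    (hmer : ∀ x : ℝ, σ₀ ≤ x → x ≤ 1 + κ → MeromorphicAt F (x : ℂ))
    (hF : ∀ s : ℂ, 1 + κ < s.re → F s = ∏' v, ∏ j, (1 - a v j * (q v : ℂ) ^ (-s))⁻¹)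
    {γ : ℝ} (hγ : Real.pi / 2 < γ) :
    ∃ (m : ℤ) (l : ℝ), meromorphicOrderAt F (σ₀ : ℂ) = m ∧
      meromorphicTrailingCoeffAt F (σ₀ : ℂ) = l ∧ l ≠ 0 ∧
      (fun T : ℝ => (∑' x, aterm q a σ₀ γ T x) - (m * (Real.log T - Lam γ) - Real.log |l| +
        Real.pi * excess F σ₀ * Complex.I)) =O[atTop] (fun T : ℝ => 1 / T) ∧
      Tendsto (fun T : ℝ => Complex.exp (∑' x, aterm q a σ₀ γ T x) / (T : ℂ) ^ m) atTop
        (𝓝 (Complex.exp (-(m * Lam γ)) / l)) := by
  set B : ℝ := max (1 + κ - σ₀) 1 with hB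
  have hB1 : 1 ≤ B := le_max_right _ _
  have hBκ : 1 + κ - σ₀ ≤ B := le_max_left _ _
  have hmer' : ∀ x : ℝ, σ₀ ≤ x → MeromorphicAt F (x : ℂ) := by
    intro x hx
    by_cases h : x ≤ 1 + κ
    · exact hmer x hx h
    · push Not at h
      exact (eg_analytic E hF (s := (x : ℂ)) (by rw [Complex.ofReal_re]; exact h)).1.meromorphicAt
  obtain ⟨m, r₀, C, T₀, hm, hr, hi, h⟩ := rot_scale (A := B) (lam := fq q) (c := cs q a σ₀)
    (Φ := fun w => F ((σ₀ : ℂ) + w)) (by linarith) E.fq_nonneg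
    (fun σ hσ => cs_summable E σ₀ (by linarith)) (fun x hx => by
      have h1 : MeromorphicAt F ((σ₀ : ℂ) + (x : ℂ)) := by
        have := hmer' (σ₀ + x) (by linarith [hx.1])
        push_cast at this
        exact this
      exact h1.comp_analyticAt (g := fun w : ℂ => (σ₀ : ℂ) + w) (by fun_prop)) (fun w hw => by
      have h1 : 1 + κ < ((σ₀ : ℂ) + w).re := by
        rw [Complex.add_re, Complex.ofReal_re]
        linarith
      show F ((σ₀ : ℂ) + w) = _
      rw [hF _ h1, (E.hasProd h1).tprod_eq, ser_cs]) hγ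
  have hord : ∀ x : ℝ, meromorphicOrderAt (fun w => F ((σ₀ : ℂ) + w)) (x : ℂ) =
      meromorphicOrderAt F ((σ₀ + x : ℝ) : ℂ) := by
    intro x
    rw [order_sh]
    congr 1
    push_cast
    rfl
  have he : (∑ᶠ x ∈ Ioc (0 : ℝ) B, (meromorphicOrderAt (fun w => F ((σ₀ : ℂ) + w))
      (x : ℂ)).untop₀) = excess F σ₀ := by
    unfold excess
    have h3 : Ioi σ₀ = (fun x : ℝ => σ₀ + x) '' Ioi (0 : ℝ) := by
      rw [Set.image_const_add_Ioi, add_zero]
    rw [h3, finsum_mem_image ((add_right_injective σ₀).injOn)]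
    rw [finsum_mem_congr rfl (fun x _ => by rw [hord x])]
    refine (finsum_mem_inter_support_eq' _ _ _ fun x hx => ?_).symm
    rw [Function.mem_support] at hx
    constructor
    · intro h
      refine ⟨h, ?_⟩
      by_contra h4
      push Not at h4
      have h5 := eg_analytic E hF (s := ((σ₀ + x : ℝ) : ℂ)) (by rw [Complex.ofReal_re]; linarith)
      rw [Pool.Agent.R409.RA.order_of_ne h5.1 h5.2] at hx
      simp at hx
    · exact fun h => h.1
  rw [he] at hi
  have hmean : ∀ T, (∑' x, aterm q a σ₀ γ T x) = -cmean (fq q) (cs q a σ₀) γ T := by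
    intro T
    unfold cmean
    rw [← tsum_neg]
    exact tsum_congr fun x => rfl
  rw [coeff_sh] at hr
  rw [order_sh, add_zero] at hm
  obtain ⟨l, h1, h2, h3, h4⟩ := law_abs (W := fun T => ∑' x, aterm q a σ₀ γ T x) (Λ := Lam γ)
    (m := m) (l := meromorphicTrailingCoeffAt F (σ₀ : ℂ)) (C := C) (T₀ := T₀) hr hi (fun T hT => by
      rw [hmean]
      exact h T hT)
  exact ⟨m, l, hm, h1, h2, h3, h4⟩

/-- the order is finite on the ray, and there are only finitely many zeros and poles -/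
theorem any_finite (E : EG κ q a) {F : ℂ → ℂ} {σ₀ : ℝ}
    (hmer : ∀ x : ℝ, σ₀ ≤ x → x ≤ 1 + κ → MeromorphicAt F (x : ℂ))
    (hF : ∀ s : ℂ, 1 + κ < s.re → F s = ∏' v, ∏ j, (1 - a v j * (q v : ℂ) ^ (-s))⁻¹) :
    (∀ x : ℝ, σ₀ ≤ x → meromorphicOrderAt F (x : ℂ) ≠ ⊤) ∧
      {x : ℝ | σ₀ ≤ x ∧ meromorphicOrderAt F (x : ℂ) ≠ 0}.Finite := by
  set R : ℝ := max σ₀ (1 + κ) + 1 with hR
  have hR1 : σ₀ < R := by rw [hR]; linarith [le_max_left σ₀ (1 + κ)]
  have hR2 : 1 + κ < R := by rw [hR]; linarith [le_max_right σ₀ (1 + κ)]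
  have hmer' : ∀ x : ℝ, σ₀ ≤ x → MeromorphicAt F (x : ℂ) := by
    intro x hx
    by_cases h : x ≤ 1 + κ
    · exact hmer x hx h
    · push Not at h
      exact (eg_analytic E hF (s := (x : ℂ)) (by rw [Complex.ofReal_re]; exact h)).1.meromorphicAt
  have hright : ∀ x : ℝ, 1 + κ < x → meromorphicOrderAt F (x : ℂ) = 0 := by
    intro x hx
    have h5 := eg_analytic E hF (s := (x : ℂ)) (by rw [Complex.ofReal_re]; exact hx)
    exact Pool.Agent.R409.RA.order_of_ne h5.1 h5.2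
  set U : Set ℂ := (fun x : ℝ => (x : ℂ)) '' Icc σ₀ R with hU
  have hm : MeromorphicOn F U := by
    rintro _ ⟨y, hy, rfl⟩
    exact hmer' y hy.1
  have hc : IsPreconnected U :=
    isPreconnected_Icc.image _ (Continuous.continuousOn (by fun_prop))
  have hne : ∀ x : ℝ, σ₀ ≤ x → meromorphicOrderAt F (x : ℂ) ≠ ⊤ := by
    intro x hx
    by_cases hxR : x ≤ R
    · refine hm.meromorphicOrderAt_ne_top_of_isPreconnected hc (x := ((R : ℝ) : ℂ))
        ⟨R, ⟨hR1.le, le_rfl⟩, rfl⟩ ⟨x, ⟨hx, hxR⟩, rfl⟩ ?_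
      rw [hright R hR2]
      exact WithTop.zero_ne_top
    · push Not at hxR
      rw [hright x (by linarith)]
      exact WithTop.zero_ne_top
  refine ⟨hne, ?_⟩
  have hcomp : IsCompact U := isCompact_Icc.image (by fun_prop)
  have hf := (MeromorphicOn.divisor F U).finiteSupport hcomp
  have hinj : Function.Injective fun x : ℝ => (x : ℂ) := Complex.ofReal_injective
  refine (hf.preimage hinj.injOn).subset ?_
  rintro x ⟨hx1, hx2⟩
  have hxR : x ≤ R := by
    by_contra h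
    push Not at h
    exact hx2 (hright x (by linarith))
  have hxU : (x : ℂ) ∈ U := ⟨x, ⟨hx1, hxR⟩, rfl⟩
  show (x : ℂ) ∈ Function.support (MeromorphicOn.divisor F U)
  rw [Function.mem_support, MeromorphicOn.divisor_apply hm hxU]
  intro h
  rw [WithTop.untop₀_eq_zero] at h
  rcases h with h | h
  · exact hx2 h
  · exact hne x hx1 h

/-- the excess vanishes iff there are no zeros, if there are no poles -/
theorem excess_zero_iff' {F : ℂ → ℂ} {σ₀ : ℝ}
    (h1 : ∀ x : ℝ, σ₀ ≤ x → meromorphicOrderAt F (x : ℂ) ≠ ⊤)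
    (h2 : {x : ℝ | σ₀ ≤ x ∧ meromorphicOrderAt F (x : ℂ) ≠ 0}.Finite)
    (h3 : ∀ x : ℝ, σ₀ < x → 0 ≤ meromorphicOrderAt F (x : ℂ)) :
    0 ≤ excess F σ₀ ∧
    (excess F σ₀ = 0 ↔ ∀ x : ℝ, σ₀ < x → meromorphicOrderAt F (x : ℂ) = 0) := by
  have hf : (Ioi σ₀ ∩ Function.support
      fun x : ℝ => (meromorphicOrderAt F (x : ℂ)).untop₀).Finite := by
    refine h2.subset ?_
    rintro x ⟨hx1, hx2⟩
    have hx1' : σ₀ < x := hx1
    refine ⟨hx1'.le, fun h0 => hx2 ?_⟩
    show (meromorphicOrderAt F (x : ℂ)).untop₀ = 0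
    rw [h0]
    rfl
  have hnn : ∀ x : ℝ, σ₀ < x → 0 ≤ (meromorphicOrderAt F (x : ℂ)).untop₀ := by
    intro x hx
    obtain ⟨n, hn⟩ := WithTop.ne_top_iff_exists.1 (h1 x hx.le)
    have := h3 x hx
    rw [← hn] at this ⊢
    simpa using this
  unfold excess
  rw [finsum_mem_eq_sum _ hf]
  constructor
  · refine Finset.sum_nonneg fun x hx => ?_
    rw [Set.Finite.mem_toFinset] at hx
    exact hnn x hx.1
  rw [Finset.sum_eq_zero_iff_of_nonneg]
  · constructor
    · intro h4 x hx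
      by_contra h5
      have h6 : (meromorphicOrderAt F (x : ℂ)).untop₀ ≠ 0 := by
        intro h
        rw [WithTop.untop₀_eq_zero] at h
        rcases h with h | h
        · exact h5 h
        · exact h1 x hx.le h
      exact h6 (h4 x (by rw [Set.Finite.mem_toFinset]; exact ⟨hx, h6⟩))
    · intro h4 x hx
      rw [Set.Finite.mem_toFinset] at hx
      rw [h4 x hx.1]
      rfl
  · intro x hx
    rw [Set.Finite.mem_toFinset] at hx
    exact hnn x hx.1

end Pool.Agent.Run7.h453.PC
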