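import Pool.Agent.N41.RM.Mult

/-! The rotated mean restricted to the extensions of degree one and two. -/

set_option autoImplicit false

namespace Pool.Agent.Run7.h453.PC

open Filter Topology Set
open Pool.Agent.W187.UR (Lam)
open Pool.Agent.W189.ML (om)
open Pool.Agent.N41.RM

variable {P : Type} {N : ℕ} {q : P → ℝ} {a : P → Fin N → ℂ}

/-- the part `k = 1, 2` of the mean -/
noncomputable def low (q : P → ℝ) (a : P → Fin N → ℂ) (γ T : ℝ) : ℂ :=
  ∑' x : P × ℕ, if x.2 < 2 then rterm q a γ T x else 0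

/-- the part `k ≥ 3` of the mean -/
noncomputable def hi3 (q : P → ℝ) (a : P → Fin N → ℂ) (γ T : ℝ) : ℂ :=
  ∑' x : P × ℕ, if x.2 < 2 then 0 else rterm q a γ T x

/-- `∑_{k ≥ 3} ∑_j a_j^k / k` -/
noncomputable def kap (a : P → Fin N → ℂ) : ℝ := ∑' x : P × ℕ, if x.2 < 2 then 0 else cq a x

theorem _root_.Pool.Agent.N41.RM.EN.low_add (E : EN q a) (γ : ℝ) {T : ℝ} (hT : 0 < T) :
    low q a γ T + hi3 q a γ T = rmn q a γ T := by
  have h := (E.rterm_summable γ hT)
  have h1 : Summable fun x : P × ℕ => if x.2 < 2 then rterm q a γ T x else 0 := by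
    refine Summable.of_norm_bounded h fun x => ?_
    split_ifs
    · exact le_rfl
    · rw [norm_zero]; exact norm_nonneg _
  have h2 : Summable fun x : P × ℕ => if x.2 < 2 then 0 else rterm q a γ T x := by
    refine Summable.of_norm_bounded h fun x => ?_
    split_ifs
    · rw [norm_zero]; exact norm_nonneg _
    · exact le_rfl
  unfold low hi3 rmn
  rw [← h1.tsum_add h2]
  refine tsum_congr fun x => ?_
  split_ifs <;> simp

theorem cq_le3 (E : EN q a) (x : P × ℕ) (hx : ¬ x.2 < 2) :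
    |cq a x| ≤ (N * (16 / 9) * q x.1 ^ (-(3 / 2) : ℝ)) * (3 / 4) ^ x.2 := by
  have hq := E.pos x.1
  obtain ⟨m, hm⟩ := Nat.exists_eq_add_of_le (not_lt.1 hx)
  have h1 : q x.1 ^ (-(1 / 2) : ℝ) ≤ 3 / 4 := by
    have h2 : q x.1 ^ (-(1 / 2) : ℝ) ≤ (2 : ℝ) ^ (-(1 / 2) : ℝ) :=
      Real.rpow_le_rpow_of_nonpos (by norm_num) (E.two_le x.1) (by norm_num)
    have h3 : (2 : ℝ) ^ (-(1 / 2) : ℝ) ≤ 3 / 4 := by
      rw [Real.rpow_neg (by norm_num), ← Real.sqrt_eq_rpow]
      rw [inv_le_comm₀ (by positivity) (by norm_num)]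
      rw [Real.le_sqrt (by norm_num) (by norm_num)]
      norm_num
    exact h2.trans h3
  have h2 : (q x.1 ^ (-(1 / 2) : ℝ)) ^ 3 = q x.1 ^ (-(3 / 2) : ℝ) := by
    rw [← Real.rpow_natCast, ← Real.rpow_mul hq.le]
    norm_num
  refine (E.cq_le x).trans ?_
  rw [hm, show 2 + m + 1 = 3 + m by ring, pow_add, h2]
  have h3 : (q x.1 ^ (-(1 / 2) : ℝ)) ^ m ≤ (3 / 4) ^ m := pow_le_pow_left₀ (by positivity) h1 m
  calc (N : ℝ) * (q x.1 ^ (-(3 / 2) : ℝ) * (q x.1 ^ (-(1 / 2) : ℝ)) ^ m)
      ≤ N * (q x.1 ^ (-(3 / 2) : ℝ) * (3 / 4) ^ m) := by gcongr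
    _ = _ := by
      rw [pow_add]
      ring

theorem summable3 (E : EN q a) : Summable fun x : P × ℕ => if x.2 < 2 then (0 : ℝ) else |cq a x| := by
  have hg : Summable fun n : ℕ => (3 / 4 : ℝ) ^ n :=
    summable_geometric_of_lt_one (by norm_num) (by norm_num)
  have h1 := ((E.sum (3 / 2) (by norm_num)).mul_left
    ((N : ℝ) * (16 / 9))).mul_of_nonneg hg
    (fun v => by
      have := E.pos v
      show 0 ≤ (N : ℝ) * (16 / 9) * q v ^ (-(3 / 2) : ℝ)
      positivity) (fun n => by positivity)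
  refine Summable.of_nonneg_of_le (fun x => ?_) (fun x => ?_) h1
  · split_ifs
    · exact le_rfl
    · exact abs_nonneg _
  · split_ifs with h
    · have := E.pos x.1
      positivity
    · exact cq_le3 E x h

theorem rterm_tendsto (E : EN q a) (γ : ℝ) (x : P × ℕ) :
    Tendsto (fun T : ℝ => rterm q a γ T x) atTop (𝓝 (-(cq a x : ℂ))) := by
  have h0 : Tendsto (fun T : ℝ => fq q x / T) atTop (𝓝 0) :=
    tendsto_const_nhds.div_atTop tendsto_id
  have h1 : Tendsto (fun T : ℝ => om (fq q x / T)) atTop (𝓝 1) := by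
    unfold om
    have h2 : ContinuousAt (fun v : ℝ => (Real.Gamma (1 + v))⁻¹) 0 := by
      have h3 : ContinuousAt Real.Gamma (1 + 0) := by
        refine (Real.differentiableAt_Gamma fun m => ?_).continuousAt
        have : (0 : ℝ) ≤ m := m.cast_nonneg
        linarith
      have h4 : ContinuousAt (fun v : ℝ => Real.Gamma (1 + v)) 0 :=
        ContinuousAt.comp (g := Real.Gamma) (f := fun v : ℝ => 1 + v) h3 (by fun_prop)
      refine h4.inv₀ ?_
      simp
    have h3 := h2.tendsto.comp h0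
    simpa [Function.comp_def] using h3
  have h2 : Tendsto (fun T : ℝ => Complex.exp ((γ * (fq q x / T) : ℝ) * Complex.I)) atTop
      (𝓝 1) := by
    have h3 : ContinuousAt (fun v : ℝ => Complex.exp ((γ * v : ℝ) * Complex.I)) 0 := by fun_prop
    have h4 := h3.tendsto.comp h0
    simpa [Function.comp_def] using h4
  have h3 : Tendsto (fun T : ℝ => -((cq a x : ℂ) * Complex.exp ((γ * (fq q x / T) : ℝ) *
      Complex.I) * (om (fq q x / T) : ℂ))) atTop (𝓝 (-((cq a x : ℂ) * 1 * ((1 : ℝ) : ℂ)))) :=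
    ((h2.const_mul _).mul ((Complex.continuous_ofReal.tendsto 1).comp h1)).neg
  rw [Complex.ofReal_one, mul_one, mul_one] at h3
  refine h3.congr fun T => ?_
  rw [E.rterm_eq]

theorem rterm_le (E : EN q a) (γ : ℝ) {T : ℝ} (hT : 0 < T) (x : P × ℕ) :
    ‖rterm q a γ T x‖ ≤ (Real.exp 1 + 1) * |cq a x| := by
  rw [E.rterm_eq, norm_neg, norm_mul, norm_mul, Complex.norm_exp_ofReal_mul_I, mul_one,
    Complex.norm_real, Complex.norm_real, Real.norm_eq_abs, Real.norm_eq_abs]
  have hv : 0 ≤ fq q x / T := div_nonneg (E.fq_nonneg x) hT.le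
  have h1 := Pool.Agent.W189.ML.om_le_const hv
  have h3 : 0 ≤ om (fq q x / T) := by
    unfold om
    exact inv_nonneg.2 (Real.Gamma_nonneg_of_nonneg (by linarith))
  rw [abs_of_nonneg h3, mul_comm]
  gcongr

theorem hi3_tendsto (E : EN q a) (γ : ℝ) :
    Tendsto (fun T : ℝ => hi3 q a γ T) atTop (𝓝 (-(kap a : ℂ))) := by
  have h1 : (-(kap a : ℂ)) = ∑' x : P × ℕ, (if x.2 < 2 then (0 : ℂ) else -(cq a x : ℂ)) := by
    unfold kap
    rw [Complex.ofReal_tsum, ← tsum_neg]
    refine tsum_congr fun x => ?_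
    split_ifs <;> simp
  rw [h1]
  unfold hi3
  refine tendsto_tsum_of_dominated_convergence
    (bound := fun x : P × ℕ => (Real.exp 1 + 1) * if x.2 < 2 then (0 : ℝ) else |cq a x|)
    ((summable3 E).mul_left _) (fun x => ?_) ?_
  · by_cases hx : x.2 < 2
    · simp only [if_pos hx]
      exact tendsto_const_nhds
    · simp only [if_neg hx]
      exact rterm_tendsto E γ x
  · filter_upwards [eventually_gt_atTop (0 : ℝ)] with T hT x
    by_cases hx : x.2 < 2
    · simp only [if_pos hx]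
      simp
    · simp only [if_neg hx]
      exact rterm_le E γ hT x

/-- the law for the degrees one and two -/
theorem low_law (E : EN q a) {γ : ℝ} {M : ℝ → ℂ}
    (h : Tendsto (fun T : ℝ => rmn q a γ T - M T) atTop (𝓝 0)) :
    Tendsto (fun T : ℝ => low q a γ T - (M T + kap a)) atTop (𝓝 0) := by
  have h1 := h.sub (hi3_tendsto E γ)
  have h2 := h1.sub_const (kap a : ℂ)
  rw [zero_sub, neg_neg, sub_self] at h2
  refine h2.congr' ?_
  filter_upwards [eventually_gt_atTop (0 : ℝ)] with T hT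
  rw [← E.low_add γ hT]
  ring

/-- the real part of a function with the law -/
theorem re_div {W : ℝ → ℂ} {r : ℤ} {c : ℂ}
    (h : Tendsto (fun T : ℝ => W T - (r * Real.log T + c)) atTop (𝓝 0)) :
    Tendsto (fun T : ℝ => (W T).re / Real.log T) atTop (𝓝 r) := by
  have h2 : Tendsto (fun T : ℝ => ((W T - (r * Real.log T + c)).re + c.re) / Real.log T + r)
      atTop (𝓝 (0 + r)) := by
    refine Tendsto.add_const _ ?_
    have h3 := (Complex.continuous_re.tendsto 0).comp h
    exact (h3.add_const c.re).div_atTop Real.tendsto_log_atTop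
  rw [zero_add] at h2
  refine h2.congr' ?_
  filter_upwards [eventually_gt_atTop 1] with T hT
  have hlog : Real.log T ≠ 0 := (Real.log_pos hT).ne'
  rw [div_add' _ _ _ hlog, ← Complex.add_re]
  congr 1
  have h4 : W T - (r * Real.log T + c) + c = W T - ((r * Real.log T : ℝ) : ℂ) := by
    push_cast
    ring
  rw [h4, Complex.sub_re, Complex.ofReal_re]
  ring

end Pool.Agent.Run7.h453.PC
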