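import Pool.Agent.Run7.h453.PC.Base

/-! The law at the central point for L-functions over number fields, the Euler factors at finitely many
primes removed from the sum but not from the function. -/

set_option autoImplicit false

namespace Pool.Agent.Run7.h453.PC

open Filter Topology Set NumberField IsDedekindDomain
open Pool.Agent.W187.UR (Lam)
open Pool.Agent.W189.ML (om)
open Pool.Agent.N41.RM

variable {K : Type} [Field K] [NumberField K] {N : ℕ}
  {S : Finset (HeightOneSpectrum (𝓞 K))} {α : HeightOneSpectrum (𝓞 K) → Fin N → ℂ} {i m : ℕ}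

theorem ext_norm (h : ∀ v j, ‖α v j‖ ≤ (Ideal.absNorm v.asIdeal : ℝ) ^ ((i : ℝ) / 2)) (v) (j) :
    ‖ext S α v j‖ ≤ (Ideal.absNorm v.asIdeal : ℝ) ^ ((i : ℝ) / 2) := by
  unfold Pool.Agent.N41.RM.ext
  split_ifs
  · rw [norm_zero]
    positivity
  · exact h v j

omit [NumberField K] in
theorem ext_re (hre : ∀ v k, (∑ j, α v j ^ (k + 1)).im = 0) (v : HeightOneSpectrum (𝓞 K)) (k : ℕ) :
    (∑ j, ext S α v j ^ (k + 1)).im = 0 := by
  unfold Pool.Agent.N41.RM.ext
  split_ifs
  · simp
  · exact hre v k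

theorem en_ext (hi : i + 1 = 2 * m)
    (h : ∀ v j, ‖α v j‖ ≤ (Ideal.absNorm v.asIdeal : ℝ) ^ ((i : ℝ) / 2))
    (hre : ∀ v k, (∑ j, α v j ^ (k + 1)).im = 0) : EN (qv (K := K)) (av m (ext S α)) :=
  en_nf hi (ext_norm h) (ext_re hre)

/-- a limit along one sequence determines the exponent and the constant -/
theorem iff_c {W : ℝ → ℂ} {m r : ℤ} {A₁ A₀ : ℂ} (hA₁ : A₁ ≠ 0) (hA₀ : A₀ ≠ 0)
    (h : Tendsto (fun T : ℝ => Complex.exp (W T) / (T : ℂ) ^ m) atTop (𝓝 A₁)) {t : ℕ → ℝ}
    (ht : Tendsto t atTop atTop)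
    (h1 : Tendsto (fun n => Complex.exp (W (t n)) / (t n : ℂ) ^ r) atTop (𝓝 A₀)) :
    m = r ∧ A₁ = A₀ := by
  have h := h.comp ht
  have h2 : Tendsto (fun n => (t n : ℂ) ^ (m - r)) atTop (𝓝 (A₀ / A₁)) := by
    refine (h1.div h hA₁).congr' ?_
    filter_upwards [ht.eventually (eventually_gt_atTop 0)] with n hT
    have hTc : (t n : ℂ) ≠ 0 := by exact_mod_cast hT.ne'
    have h3 := Complex.exp_ne_zero (W (t n))
    rw [zpow_sub₀ hTc]
    have h4 : (t n : ℂ) ^ m ≠ 0 := zpow_ne_zero _ hTc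
    have h5 : (t n : ℂ) ^ r ≠ 0 := zpow_ne_zero _ hTc
    simp only [Pi.div_apply, Function.comp_apply]
    field_simp
  have h3 : Tendsto (fun n => (t n) ^ (m - r)) atTop (𝓝 ‖A₀ / A₁‖) := by
    refine h2.norm.congr' ?_
    filter_upwards [ht.eventually (eventually_gt_atTop 0)] with n hT
    rw [norm_zpow, Complex.norm_real, Real.norm_eq_abs, abs_of_pos hT]
  have h4 : m - r = 0 := by
    rcases lt_trichotomy (m - r) 0 with h5 | h5 | h5
    · exfalso
      have h6 : Tendsto (fun n => (t n) ^ (m - r)) atTop (𝓝 0) :=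
        (tendsto_zpow_atTop_zero h5).comp ht
      have h7 := tendsto_nhds_unique h3 h6
      rw [norm_eq_zero] at h7
      exact div_ne_zero hA₀ hA₁ h7
    · exact h5
    · exfalso
      have h6 : Tendsto (fun T : ℝ => T ^ (m - r)) atTop atTop := by
        obtain ⟨n, hn⟩ := Int.eq_ofNat_of_zero_le h5.le
        rw [hn]
        simp only [zpow_natCast]
        refine tendsto_pow_atTop ?_
        intro h0
        rw [h0] at hn
        rw [hn] at h5
        exact absurd h5 (by simp)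
      exact not_tendsto_nhds_of_tendsto_atTop (h6.comp ht) _ h3
  have h5 : m = r := by linarith
  subst h5
  refine ⟨rfl, (tendsto_nhds_unique h1 ?_).symm⟩
  simpa [Function.comp_def] using h

theorem trailing_mul {F G : ℂ → ℂ} {x : ℂ} {r : ℤ} {c : ℂ} (hF : MeromorphicAt F x)
    (hG : AnalyticAt ℂ G x) (hG0 : G x ≠ 0) (hc : c ≠ 0)
    (h : Tendsto (fun s => (s - x) ^ (-r) * (F s * G s)) (𝓝[≠] x) (𝓝 c)) :
    meromorphicOrderAt F x = r ∧ meromorphicTrailingCoeffAt F x = c / G x := by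
  have h1 : Tendsto G (𝓝[≠] x) (𝓝 (G x)) := hG.continuousAt.tendsto.mono_left nhdsWithin_le_nhds
  have h2 : Tendsto (fun s => (s - x) ^ (-r) * F s) (𝓝[≠] x) (𝓝 (c / G x)) := by
    refine (h.div h1 hG0).congr' ?_
    filter_upwards [h1.eventually_ne hG0] with s hs
    simp only [Pi.div_apply]
    field_simp
  exact order_of_lim hF (div_ne_zero hc hG0) h2

/-- **the law at the central point** -/
theorem lawS (hi : i + 1 = 2 * m)
    (h : ∀ v j, ‖α v j‖ ≤ (Ideal.absNorm v.asIdeal : ℝ) ^ ((i : ℝ) / 2))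
    (hre : ∀ v k, (∑ j, α v j ^ (k + 1)).im = 0) {F : ℂ → ℂ}
    (hmer : ∀ x : ℝ, (m : ℝ) ≤ x → x ≤ (m : ℝ) + 1 / 2 → MeromorphicAt F (x : ℂ))
    (hF : ∀ s : ℂ, (m : ℝ) + 1 / 2 < s.re → F s =
      ∏' v : HeightOneSpectrum (𝓞 K), ∏ j, (1 - α v j * (Ideal.absNorm v.asIdeal : ℂ) ^ (-s))⁻¹)
    {γ : ℝ} (hγ : Real.pi / 2 < γ) :
    ∃ (r : ℤ) (c : ℂ), c ≠ 0 ∧ bad S α m ≠ 0 ∧ meromorphicOrderAt F m = r ∧
      meromorphicTrailingCoeffAt F m = c ∧
      (fun T : ℝ => rmn (qv (K := K)) (av m (ext S α)) γ T - (r * (Real.log T - Lam γ) -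
        Real.log ‖c * bad S α m‖ +
        Real.pi * excess F m * Complex.I)) =O[atTop] (fun T : ℝ => 1 / T) ∧
      Tendsto (fun T : ℝ => Complex.exp (rmn (qv (K := K)) (av m (ext S α)) γ T) / (T : ℂ) ^ r) atTop
        (𝓝 (Complex.exp (-(r * Lam γ)) / (c * bad S α m))) := by
  have h3 : ((i : ℝ)) + 1 = 2 * m := by exact_mod_cast hi
  have hm : (i : ℝ) / 2 < ((m : ℕ) : ℂ).re := by
    rw [Complex.natCast_re]
    linarith
  have hb0 := bad_ne (S := S) h hm
  have hFm : MeromorphicAt F ((m : ℕ) : ℂ) := by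
    have := hmer m le_rfl (by linarith)
    rwa [Complex.ofReal_natCast] at this
  obtain ⟨r, l, h4, h5, h6, h7, h8⟩ := nf_law (K := K) (α := ext S α) (F := fun s => F s * bad S α s)
    (m := m) hi (ext_norm h) (ext_re hre) (fun x h1 h2 => (hmer x h1 h2).mul
      (bad_analytic (x : ℂ)).meromorphicAt) (fun s hs => by
      show F s * bad S α s = _
      rw [hF s hs]
      exact prod_bad hi h hre (by linarith)) hγ
  have hmerF : MeromorphicAt (fun s => F s * bad S α s) ((m : ℕ) : ℂ) :=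
    hFm.mul (bad_analytic _).meromorphicAt
  have h9 := lim_of_order hmerF h4 h5
  have hl0 : (l : ℂ) ≠ 0 := by exact_mod_cast h6
  obtain ⟨h10, h11⟩ := trailing_mul hFm (bad_analytic _) hb0 hl0 h9
  have h12 : excess (fun s => F s * bad S α s) m = excess F m := by
    unfold excess
    refine finsum_mem_congr rfl fun x hx => ?_
    have hx' : (m : ℝ) < x := hx
    have hmx : MeromorphicAt F (x : ℂ) := by
      by_cases hx1 : x ≤ (m : ℝ) + 1 / 2
      · exact hmer x hx'.le hx1
      · push Not at hx1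
        have E := en_nf (m := m) hi h hre
        have hpr : ∀ w : ℂ, 1 / 2 < w.re → HasProd
            (fun v => ∏ j, (1 - av m α v j * (qv v : ℂ) ^ (-w))⁻¹) (F (m + w)) := by
          intro w hw
          have e1 := hasProd_nf (s := m + w) hi h hre (by
            rw [Complex.add_re, Complex.natCast_re]
            linarith)
          have e2 := hF (m + w) (by
            rw [Complex.add_re, Complex.natCast_re]
            linarith)
          rw [← e2] at e1
          have e4 : (fun v : HeightOneSpectrum (𝓞 K) => ∏ j, (1 - av m α v j *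
              (qv v : ℂ) ^ (-w))⁻¹) = fun v : HeightOneSpectrum (𝓞 K) => ∏ j, (1 - α v j *
                (Ideal.absNorm v.asIdeal : ℂ) ^ (-(m + w)))⁻¹ := by
            funext v
            refine Finset.prod_congr rfl fun j _ => ?_
            have hq : (2 : ℝ) ≤ Ideal.absNorm v.asIdeal := Pool.Agent.R409.RA.two_le v
            have hq0 : (Ideal.absNorm v.asIdeal : ℂ) ≠ 0 := by
              have : (Ideal.absNorm v.asIdeal : ℝ) ≠ 0 := by linarith
              exact_mod_cast this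
            unfold av qv
            rw [Complex.ofReal_natCast, neg_add, Complex.cpow_add _ _ hq0, Complex.cpow_neg _ (m : ℂ),
              Complex.cpow_natCast]
            congr 2
            field_simp
          rw [e4]
          exact e1
        have e5 := (E.phi_analytic (Φ := fun w => F (m + w)) hpr (w := ((x - m : ℝ) : ℂ)) (by
          rw [Complex.ofReal_re]; linarith)).1.meromorphicAt
        have e6 : MeromorphicAt ((fun w => F (m + w)) ∘ fun s : ℂ => s - m) (x : ℂ) := by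
          refine MeromorphicAt.comp_analyticAt ?_ (by fun_prop)
          convert e5 using 1
          push_cast
          ring
        refine e6.congr ?_
        filter_upwards with s
        simp
    rw [order_bad h (by rw [Complex.ofReal_re]; linarith) hmx]
  refine ⟨r, (l : ℂ) / bad S α m, div_ne_zero hl0 hb0, hb0, h10, h11, ?_, ?_⟩
  · rw [div_mul_cancel₀ _ hb0, Complex.norm_real, Real.norm_eq_abs, ← h12]
    exact h7
  · rw [div_mul_cancel₀ _ hb0]
    exact h8

/-- meromorphy on the ray, and only finitely many zeros and poles -/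
theorem ray_finite (hi : i + 1 = 2 * m)
    (h : ∀ v j, ‖α v j‖ ≤ (Ideal.absNorm v.asIdeal : ℝ) ^ ((i : ℝ) / 2))
    (hre : ∀ v k, (∑ j, α v j ^ (k + 1)).im = 0) {F : ℂ → ℂ}
    (hmer : ∀ x : ℝ, (m : ℝ) ≤ x → x ≤ (m : ℝ) + 1 / 2 → MeromorphicAt F (x : ℂ))
    (hF : ∀ s : ℂ, (m : ℝ) + 1 / 2 < s.re → F s =
      ∏' v : HeightOneSpectrum (𝓞 K), ∏ j, (1 - α v j * (Ideal.absNorm v.asIdeal : ℂ) ^ (-s))⁻¹) :
    (∀ x : ℝ, (m : ℝ) ≤ x → meromorphicOrderAt F (x : ℂ) ≠ ⊤) ∧
      {x : ℝ | (m : ℝ) ≤ x ∧ meromorphicOrderAt F (x : ℂ) ≠ 0}.Finite := by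
  have E := en_nf (m := m) hi h hre
  have h3 : ((i : ℝ)) + 1 = 2 * m := by exact_mod_cast hi
  have hpr : ∀ w : ℂ, 1 / 2 < w.re → HasProd
      (fun v => ∏ j, (1 - av m α v j * (qv v : ℂ) ^ (-w))⁻¹) (F (m + w)) := by
    intro w hw
    have e1 := hasProd_nf (s := m + w) hi h hre (by
      rw [Complex.add_re, Complex.natCast_re]
      linarith)
    have e2 := hF (m + w) (by
      rw [Complex.add_re, Complex.natCast_re]
      linarith)
    rw [← e2] at e1
    have e4 : (fun v : HeightOneSpectrum (𝓞 K) => ∏ j, (1 - av m α v j *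
        (qv v : ℂ) ^ (-w))⁻¹) = fun v : HeightOneSpectrum (𝓞 K) => ∏ j, (1 - α v j *
          (Ideal.absNorm v.asIdeal : ℂ) ^ (-(m + w)))⁻¹ := by
      funext v
      refine Finset.prod_congr rfl fun j _ => ?_
      have hq : (2 : ℝ) ≤ Ideal.absNorm v.asIdeal := Pool.Agent.R409.RA.two_le v
      have hq0 : (Ideal.absNorm v.asIdeal : ℂ) ≠ 0 := by
        have : (Ideal.absNorm v.asIdeal : ℝ) ≠ 0 := by linarith
        exact_mod_cast this
      unfold av qv
      rw [Complex.ofReal_natCast, neg_add, Complex.cpow_add _ _ hq0, Complex.cpow_neg _ (m : ℂ),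
        Complex.cpow_natCast]
      congr 2
      field_simp
    rw [e4]
    exact e1
  have D := E.mdata (Φ := fun w => F (m + w)) (fun x hx => by
    have h1 : MeromorphicAt F ((m : ℂ) + (x : ℂ)) := by
      have := hmer (m + x) (by linarith [hx.1]) (by linarith [hx.2])
      push_cast at this
      exact this
    exact h1.comp_analyticAt (g := fun w : ℂ => (m : ℂ) + w) (by fun_prop)) hpr
  have hord : ∀ x : ℝ, meromorphicOrderAt (fun w => F (m + w)) ((x - m : ℝ) : ℂ) =
      meromorphicOrderAt F (x : ℂ) := by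
    intro x
    rw [order_sh]
    congr 1
    push_cast
    ring
  have hright : ∀ x : ℝ, (m : ℝ) + 1 / 2 < x → meromorphicOrderAt F (x : ℂ) = 0 := by
    intro x hx
    have h4 := E.phi_analytic (Φ := fun w => F (m + w)) hpr (w := ((x - m : ℝ) : ℂ)) (by
      rw [Complex.ofReal_re]; linarith)
    rw [← hord x]
    exact Pool.Agent.R409.RA.order_of_ne h4.1 h4.2
  constructor
  · intro x hx
    by_cases hx2 : x ≤ (m : ℝ) + 1 / 2
    · have h1 := D.order_ne_top (x := x - m) ⟨by linarith, by linarith⟩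
      rw [hord x] at h1
      exact h1
    · push Not at hx2
      rw [hright x hx2]
      exact WithTop.zero_ne_top
  · refine ((D.finite_zeros).image fun y : ℝ => (m : ℝ) + y).subset ?_
    rintro x ⟨hx1, hx2⟩
    refine ⟨x - m, ⟨⟨by linarith, ?_⟩, ?_⟩, by ring⟩
    · by_contra h5
      push Not at h5
      exact hx2 (hright x (by linarith))
    · rw [hord x]
      exact hx2

/-- the excess vanishes iff there are no zeros, if there are no poles -/
theorem excess_zero_iff {F : ℂ → ℂ} {m : ℕ}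
    (h1 : ∀ x : ℝ, (m : ℝ) ≤ x → meromorphicOrderAt F (x : ℂ) ≠ ⊤)
    (h2 : {x : ℝ | (m : ℝ) ≤ x ∧ meromorphicOrderAt F (x : ℂ) ≠ 0}.Finite)
    (h3 : ∀ x : ℝ, (m : ℝ) < x → 0 ≤ meromorphicOrderAt F (x : ℂ)) :
    0 ≤ excess F m ∧
    (excess F m = 0 ↔ ∀ x : ℝ, (m : ℝ) < x → meromorphicOrderAt F (x : ℂ) = 0) := by
  have hf : (Ioi (m : ℝ) ∩ Function.support
      fun x : ℝ => (meromorphicOrderAt F (x : ℂ)).untop₀).Finite := by
    refine h2.subset ?_
    rintro x ⟨hx1, hx2⟩
    have hx1' : (m : ℝ) < x := hx1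
    refine ⟨hx1'.le, fun h0 => hx2 ?_⟩
    show (meromorphicOrderAt F (x : ℂ)).untop₀ = 0
    rw [h0]
    rfl
  have hnn : ∀ x : ℝ, (m : ℝ) < x → 0 ≤ (meromorphicOrderAt F (x : ℂ)).untop₀ := by
    intro x hx
    obtain ⟨n, hn⟩ := WithTop.ne_top_iff_exists.1 (h1 x hx.le)
    have := h3 x hx
    rw [← hn] at this ⊢
    simpa using this
  unfold excess
  rw [finsum_mem_eq_sum _ hf]
  constructor
  · refine Finset.sum_nonneg fun x hx => ?_
    rw [Set.Finite.mem_toFinset] at hx
    exact hnn x hx.1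
  rw [Finset.sum_eq_zero_iff_of_nonneg]
  · constructor
    · intro h4 x hx
      by_contra h5
      have h6 : (meromorphicOrderAt F (x : ℂ)).untop₀ ≠ 0 := by
        intro h
        rw [WithTop.untop₀_eq_zero] at h
        rcases h with h | h
        · exact h5 h
        · exact h1 x hx.le h
      exact h6 (h4 x (by rw [Set.Finite.mem_toFinset]; exact ⟨hx, h6⟩))
    · intro h4 x hx
      rw [Set.Finite.mem_toFinset] at hx
      rw [h4 x hx.1]
      rfl
  · intro x hx
    rw [Set.Finite.mem_toFinset] at hx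
    exact hnn x hx.1

end Pool.Agent.Run7.h453.PC
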